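import Pool.Agent.NTW.StmtsA

/-!
# Squad NTW, row UOP (units are interior points)
-/

set_option autoImplicit false

open Matrix Filter Topology

noncomputable section

namespace Pool.Agent.NTW.H21

open Pool.Agent.PFS Pool.Agent.PFJ Pool.Agent.NTS

theorem uop : UopStmt := by
  intro n C hC L y hy z hz hlim
  obtain ⟨hyL, hyC, hu⟩ := hy
  set b := Module.finBasis ℝ L with hb
  have hM : ∀ i, ∃ M : ℝ, 0 < M ∧ M • y - (b i : V n) ∈ closure C ∧
      M • y + (b i : V n) ∈ closure C := by
    intro i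
    obtain ⟨M1, h1, h1'⟩ := hu (b i : V n) (b i).2
    obtain ⟨M2, h2, h2'⟩ := hu (-(b i : V n)) (L.neg_mem (b i).2)
    refine ⟨max M1 M2, lt_max_of_lt_left h1, ?_, ?_⟩
    · have h3 := hC.cl_add h1' (hC.cl_smul hyC (sub_nonneg.2 (le_max_left M1 M2)))
      have h4 : M1 • y - (b i : V n) + (max M1 M2 - M1) • y = max M1 M2 • y - (b i : V n) := by
        rw [sub_smul]
        abel
      rwa [h4] at h3
    · have h3 := hC.cl_add h2' (hC.cl_smul hyC (sub_nonneg.2 (le_max_right M1 M2)))
      have h4 : M2 • y - -(b i : V n) + (max M1 M2 - M2) • y = max M1 M2 • y + (b i : V n) := by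
        rw [sub_smul]
        abel
      rwa [h4] at h3
  choose M hM0 hM1 hM2 using hM
  set ζ : ℕ → L := fun m => ⟨z m, hz m⟩ with hζ
  have hζlim : Tendsto ζ atTop (𝓝 0) := by
    rw [tendsto_subtype_rng]
    exact hlim
  have hco : ∀ i, Tendsto (fun m => b.coord i (ζ m)) atTop (𝓝 0) := by
    intro i
    have h1 := (LinearMap.continuous_of_finiteDimensional (b.coord i)).tendsto 0
    rw [map_zero] at h1
    exact h1.comp hζlim
  have hsum : Tendsto (fun m => ∑ i, |b.coord i (ζ m)| * M i) atTop (𝓝 0) := by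
    have h1 : Tendsto (fun m => ∑ i, |b.coord i (ζ m)| * M i) atTop
        (𝓝 (∑ i, |(0 : ℝ)| * M i)) :=
      tendsto_finsetSum _ fun i _ => ((hco i).abs.mul_const (M i))
    simpa using h1
  filter_upwards [hsum.eventually (ge_mem_nhds (zero_lt_one' ℝ))] with m hm
  have hrep : z m = ∑ i, b.coord i (ζ m) • (b i : V n) := by
    have h1 := b.sum_repr (ζ m)
    have h2 := congrArg (fun w : L => (w : V n)) h1
    simp only [Submodule.coe_sum, Submodule.coe_smul] at h2
    exact h2.symm
  have he : y + z m = (1 - ∑ i, |b.coord i (ζ m)| * M i) • y +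
      ∑ i, ((|b.coord i (ζ m)| * M i) • y + b.coord i (ζ m) • (b i : V n)) := by
    rw [Finset.sum_add_distrib, ← Finset.sum_smul, sub_smul, one_smul, ← hrep]
    abel
  rw [he]
  refine hC.cl_add (hC.cl_smul hyC (sub_nonneg.2 hm)) (hC.cl_sum fun i _ => ?_)
  rcases le_total 0 (b.coord i (ζ m)) with h | h
  · have h1 := hC.cl_smul (hM2 i) h
    rw [smul_add, smul_smul] at h1
    rw [abs_of_nonneg h]
    exact h1
  · have h1 := hC.cl_smul (hM1 i) (neg_nonneg.2 h)
    rw [smul_sub, smul_smul, neg_smul (b.coord i (ζ m)) (b i : V n), sub_neg_eq_add] at h1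
    rw [abs_of_nonpos h]
    exact h1

end Pool.Agent.NTW.H21
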